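import Mathlib
import Pool.Agent.Had83.Final

/-!
# Nevanlinna deficiencies of Hadamard gap series in the unit disc
-/

open Filter Topology Real MeasureTheory

namespace Pool.Agent.Results.MP_2df86a_an.GapDeficiency

/-- `f` is analytic in the unit disc, with a power series `∑ a_k z^{n_k}` which has Hadamard gaps:
`n_0 < n_1 < …` and `n_{k+1} ≥ q n_k` for some `q > 1` (a constant term, `n_0 = 0`, is allowed). -/
def IsGapSeries (f : ℂ → ℂ) : Prop :=
  ∃ (q : ℝ) (a : ℕ → ℂ) (n : ℕ → ℕ), 1 < q ∧ StrictMono n ∧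
    (∀ k, q * (n k : ℝ) ≤ (n (k + 1) : ℝ)) ∧
    ∀ z : ℂ, ‖z‖ < 1 → HasSum (fun k => a k * z ^ n k) (f z)

/-- The Nevanlinna characteristic `T(r, f) = (1/2π) ∫ log⁺ |f(r e^{iθ})| dθ`. -/
noncomputable def nevT (f : ℂ → ℂ) (r : ℝ) : ℝ := circleAverage (fun z => log⁺ ‖f z‖) 0 r

/-- The proximity function `m(r, w) = (1/2π) ∫ log⁺ (1 / |f(r e^{iθ}) - w|) dθ`. -/
noncomputable def nevM (f : ℂ → ℂ) (w : ℂ) (r : ℝ) : ℝ :=
  circleAverage (fun z => log⁺ (1 / ‖f z - w‖)) 0 r

/-- The multiplicity of `u` as a `w`-point of `f`. -/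
noncomputable def mult (f : ℂ → ℂ) (w u : ℂ) : ℕ := analyticOrderNatAt (fun z => f z - w) u

/-- The integrated counting function of the `w`-points of `f`, with multiplicity:
`N(r, w) = ∑_{0 < |u| ≤ r} mult(u) log (r / |u|) + mult(0) log r`. -/
noncomputable def nevN (f : ℂ → ℂ) (w : ℂ) (r : ℝ) : ℝ :=
  (∑ᶠ u ∈ {u : ℂ | 0 < ‖u‖ ∧ ‖u‖ ≤ r}, (mult f w u : ℝ) * log (r / ‖u‖)) +
    (mult f w 0 : ℝ) * log r

/-- The deficiency `δ(w, f) = liminf_{r → 1-} m(r, w) / T(r, f)`. -/
noncomputable def deficiency (f : ℂ → ℂ) (w : ℂ) : EReal :=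
  liminf (fun r : ℝ => ((nevM f w r / nevT f r : ℝ) : EReal)) (𝓝[<] 1)

/-! ### Proof -/

private lemma gap_analytic {f : ℂ → ℂ} (hf : IsGapSeries f) :
    AnalyticOnNhd ℂ f (Metric.ball 0 1) := by
  obtain ⟨q, a, n, hq, hn, hr, hs⟩ := hf
  refine DifferentiableOn.analyticOnNhd ?_ Metric.isOpen_ball
  intro z hz
  rw [mem_ball_zero_iff] at hz
  obtain ⟨ρ, h1, h2⟩ := exists_between hz
  have hρ0 : 0 ≤ ρ := (norm_nonneg z).trans h1.le
  have hsum : Summable fun k => ‖a k * ((ρ : ℝ) : ℂ) ^ n k‖ := by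
    have := (hs (ρ : ℂ) (by rwa [Complex.norm_real, Real.norm_of_nonneg hρ0])).summable
    exact this.norm
  have hd : DifferentiableOn ℂ (fun z => ∑' k, a k * z ^ n k) (Metric.ball 0 ρ) := by
    refine Complex.differentiableOn_tsum_of_summable_norm hsum (fun k => ?_) Metric.isOpen_ball
      (fun k u hu => ?_)
    · exact ((differentiable_id.pow _).const_mul _).differentiableOn
    · rw [mem_ball_zero_iff] at hu
      rw [norm_mul, norm_mul, norm_pow, norm_pow, Complex.norm_real, Real.norm_of_nonneg hρ0]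
      gcongr
  have hz' : Metric.ball (0 : ℂ) ρ ∈ 𝓝 z := Metric.isOpen_ball.mem_nhds (by
    rwa [mem_ball_zero_iff])
  have h3 := (hd z (by rwa [mem_ball_zero_iff])).differentiableAt hz'
  refine (h3.congr_of_eventuallyEq ?_).differentiableWithinAt
  filter_upwards [hz'] with u hu
  rw [mem_ball_zero_iff] at hu
  exact ((hs u (hu.trans h2)).tsum_eq).symm

private lemma mero {f : ℂ → ℂ} (hf : IsGapSeries f) (w : ℂ) {r : ℝ} (h0 : 0 < r) (h1 : r < 1) :
    AnalyticOnNhd ℂ (fun z => f z - w) (Metric.closedBall 0 |r|) := by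
  intro z hz
  rw [mem_closedBall_zero_iff, abs_of_pos h0] at hz
  exact ((gap_analytic hf) z (by rw [mem_ball_zero_iff]; linarith)).sub analyticAt_const

private lemma intT {f : ℂ → ℂ} (hf : IsGapSeries f) {r : ℝ} (h0 : 0 < r) (h1 : r < 1) :
    CircleIntegrable (fun z => log⁺ ‖f z‖) 0 r := by
  have h := (mero hf 0 h0 h1).mono (Metric.sphere_subset_closedBall)
  have := h.meromorphicOn.circleIntegrable_posLog_norm
  simpa using this

private lemma intTw {f : ℂ → ℂ} (hf : IsGapSeries f) (w : ℂ) {r : ℝ} (h0 : 0 < r) (h1 : r < 1) :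
    CircleIntegrable (fun z => log⁺ ‖f z - w‖) 0 r :=
  ((mero hf w h0 h1).mono (Metric.sphere_subset_closedBall)).meromorphicOn.circleIntegrable_posLog_norm

private lemma intM {f : ℂ → ℂ} (hf : IsGapSeries f) (w : ℂ) {r : ℝ} (h0 : 0 < r) (h1 : r < 1) :
    CircleIntegrable (fun z => log⁺ (1 / ‖f z - w‖)) 0 r := by
  have h := ((mero hf w h0 h1).mono (Metric.sphere_subset_closedBall)).meromorphicOn.inv
  have := h.circleIntegrable_posLog_norm
  simpa using this

private lemma untop_map (x : ℕ∞) : ((x.map (fun n : ℕ => (n : ℤ))).untop₀ : ℤ) = (x.toNat : ℤ) := by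
  cases x with
  | top => simp
  | coe n => simp

private lemma count_eq {f : ℂ → ℂ} (hf : IsGapSeries f) (w : ℂ) {r : ℝ} (h0 : 0 < r) (h1 : r < 1) :
    nevN f w r =
      ∑ᶠ u, MeromorphicOn.divisor (fun z => f z - w) (Metric.closedBall 0 |r|) u *
      log (r * ‖0 - u‖⁻¹) + MeromorphicOn.divisor (fun z => f z - w) (Metric.closedBall 0 |r|) 0 *
      log r := by
  have hA := mero hf w h0 h1
  have hd : ∀ u ∈ Metric.closedBall (0 : ℂ) |r|,
      (MeromorphicOn.divisor (fun z => f z - w) (Metric.closedBall 0 |r|) u : ℝ) =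
        (mult f w u : ℝ) := by
    intro u hu
    have h2 := MeromorphicOn.AnalyticOnNhd.divisor_apply hA hu
    rw [h2]
    have h3 := untop_map (analyticOrderAt (fun z => f z - w) u)
    unfold mult analyticOrderNatAt
    exact_mod_cast h3
  unfold nevN
  rw [hd 0 (by simp)]
  congr 1
  rw [finsum_mem_def]
  apply finsum_congr
  intro u
  rw [zero_sub, norm_neg, ← div_eq_mul_inv]
  by_cases hu0 : u = 0
  · subst hu0
    rw [Set.indicator_of_notMem (by simp)]
    simp
  by_cases hu : ‖u‖ ≤ r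
  · rw [Set.indicator_of_mem (by exact ⟨norm_pos_iff.2 hu0, hu⟩),
      hd u (by rw [mem_closedBall_zero_iff, abs_of_pos h0]; exact hu)]
  · rw [Set.indicator_of_notMem (by intro h; exact hu h.2),
      Function.locallyFinsuppWithin.apply_eq_zero_of_notMem _ (by
        rw [mem_closedBall_zero_iff, abs_of_pos h0]; exact hu)]
    simp

/-- first main theorem -/
private lemma fmt {f : ℂ → ℂ} (hf : IsGapSeries f) (w : ℂ) :
    ∃ C : ℝ, ∀ r : ℝ, 0 < r → r < 1 → |nevN f w r + nevM f w r - nevT f r| ≤ C := by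
  refine ⟨log 2 + log⁺ ‖w‖ + |log ‖meromorphicTrailingCoeffAt (fun z => f z - w) 0‖|,
    fun r h0 h1 => ?_⟩
  have hA := mero hf w h0 h1
  have hJ := hA.meromorphicOn.circleAverage_log_norm h0.ne'
  have hN := count_eq hf w h0 h1
  have hL : circleAverage (fun z => log ‖f z - w‖) 0 r =
      circleAverage (fun z => log⁺ ‖f z - w‖) 0 r - nevM f w r := by
    unfold nevM
    rw [← circleAverage_fun_sub (intTw hf w h0 h1) (intM hf w h0 h1)]
    congr 1
    funext z
    rw [one_div, posLog_sub_posLog_inv]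
  have hcI : CircleIntegrable (fun _ : ℂ => log 2 + log⁺ ‖w‖) 0 r := circleIntegrable_const _ _ _
  have hU : circleAverage (fun z => log⁺ ‖f z - w‖) 0 r ≤ nevT f r + (log 2 + log⁺ ‖w‖) := by
    unfold nevT
    rw [← circleAverage_const (log 2 + log⁺ ‖w‖) (0 : ℂ) r,
      ← circleAverage_fun_add (intT hf h0 h1) hcI]
    refine circleAverage_mono (intTw hf w h0 h1) ((intT hf h0 h1).add hcI) fun z _ => ?_
    have := posLog_norm_add_le (f z) (-w)
    rw [norm_neg, ← sub_eq_add_neg] at this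
    linarith
  have hV : nevT f r ≤ circleAverage (fun z => log⁺ ‖f z - w‖) 0 r + (log 2 + log⁺ ‖w‖) := by
    unfold nevT
    rw [← circleAverage_const (log 2 + log⁺ ‖w‖) (0 : ℂ) r,
      ← circleAverage_fun_add (intTw hf w h0 h1) hcI]
    refine circleAverage_mono (intT hf h0 h1) ((intTw hf w h0 h1).add hcI) fun z _ => ?_
    have := posLog_norm_add_le (f z - w) w
    rw [sub_add_cancel] at this
    linarith
  rw [← hN, hL] at hJ
  rw [abs_le]
  have h2 := neg_abs_le (log ‖meromorphicTrailingCoeffAt (fun z => f z - w) 0‖)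
  have h3 := le_abs_self (log ‖meromorphicTrailingCoeffAt (fun z => f z - w) 0‖)
  constructor <;> linarith

/-- the proximity function does not tend to infinity -/
private lemma freq {f : ℂ → ℂ} (hf : IsGapSeries f) (hT : Tendsto (nevT f) (𝓝[<] 1) atTop) (w : ℂ) :
    ∃ C : ℝ, 0 < C ∧ ∃ᶠ r in 𝓝[<] (1 : ℝ), nevM f w r ≤ C := by
  have hf' := hf
  obtain ⟨q, a, n, hq, hn, hr, hs⟩ := hf
  have hpi := Real.pi_pos
  have hgood : Pool.Agent.Had83.Good a n := by
    intro η hη
    have h1 := (hs ((Real.exp (-η) : ℝ) : ℂ) (by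
      rw [Complex.norm_real, Real.norm_of_nonneg (Real.exp_pos _).le, Real.exp_lt_one_iff]
      linarith)).summable.norm
    refine h1.congr fun k => ?_
    rw [norm_mul, norm_pow, Complex.norm_real, Real.norm_of_nonneg (Real.exp_pos _).le,
      ← Real.exp_nat_mul]
    congr 2
    ring
  have hser : ∀ t : ℝ, t < 0 → ∀ θ : ℝ,
      Pool.Agent.Had83.Ser a n (t + θ * Complex.I) = f (circleMap 0 (Real.exp t) θ) := by
    intro t ht θ
    rw [← Pool.Agent.Had83.ser_circle]
    exact (hs _ (by rw [norm_circleMap_zero, abs_of_pos (Real.exp_pos _), Real.exp_lt_one_iff]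
                    exact ht)).tsum_eq
  have key := Pool.Agent.Had83.expForm hq hn hr hgood w
  have h2 : Tendsto Real.exp (𝓝[<] 0) (𝓝[<] 1) := by
    refine tendsto_nhdsWithin_of_tendsto_nhds_of_eventually_within _ ?_ ?_
    · have := (Real.continuous_exp.tendsto 0).mono_left (nhdsWithin_le_nhds (s := Set.Iio 0))
      simpa using this
    · filter_upwards [self_mem_nhdsWithin] with t ht
      rw [Set.mem_Iio, Real.exp_lt_one_iff]
      exact ht
  by_contra hcon
  push Not at hcon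
  apply key
  · intro S
    have h1 := hT.eventually (eventually_gt_atTop S)
    obtain ⟨t, h3, h4⟩ := ((h2.eventually h1).and self_mem_nhdsWithin).exists
    refine ⟨t, h4, ?_⟩
    simp only [hser t h4]
    exact h3
  · intro M
    have h1 := h2.eventually (hcon (|M| + 1) (by positivity))
    obtain ⟨s, hs0, hsub⟩ := mem_nhdsLT_iff_exists_Ioo_subset.1 h1
    refine ⟨s, hs0, fun t ht1 ht2 => ?_⟩
    have h3 : |M| + 1 < nevM f w (Real.exp t) := hsub ⟨ht1, ht2⟩
    have h4 : Pool.Agent.Had83.mPsi a n w t = ∫⁻ θ in Set.Ioc 0 (2 * π), ENNReal.ofReal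
        (log⁺ (1 / ‖f (circleMap 0 (Real.exp t) θ) - w‖)) := by
      unfold Pool.Agent.Had83.mPsi
      apply lintegral_congr
      intro θ
      unfold Pool.Agent.Had83.Psi
      rw [Pool.Agent.Had83.SerM_eq (by simpa using ht2), hser t ht2, one_div]
      rfl
    have h5 := intM hf' w (Real.exp_pos t) (by rw [Real.exp_lt_one_iff]; exact ht2)
    have h6 : IntegrableOn (fun θ : ℝ => log⁺ (1 / ‖f (circleMap 0 (Real.exp t) θ) - w‖))
        (Set.Ioc 0 (2 * π)) := by
      have := h5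
      unfold CircleIntegrable at this
      rwa [intervalIntegrable_iff_integrableOn_Ioc_of_le (by positivity)] at this
    rw [h4, ← ofReal_integral_eq_lintegral_ofReal h6 (Eventually.of_forall fun θ => posLog_nonneg)]
    apply ENNReal.ofReal_le_ofReal
    unfold nevM circleAverage at h3
    rw [intervalIntegral.integral_of_le (by positivity), smul_eq_mul, inv_mul_eq_div,
      lt_div_iff₀ (by positivity)] at h3
    have h7 : |M| * 1 ≤ (|M| + 1) * (2 * π) := by
      apply mul_le_mul (by linarith) (by linarith [Real.pi_gt_three]) (by norm_num) (by positivity)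
    linarith [le_abs_self M]

private lemma fin_pts {f : ℂ → ℂ} (hf : IsGapSeries f) (hT : Tendsto (nevT f) (𝓝[<] 1) atTop)
    (w : ℂ) {r : ℝ} (hr : r < 1) : {u : ℂ | ‖u‖ ≤ r ∧ f u = w}.Finite := by
  by_contra hinf
  have hsub : {u : ℂ | ‖u‖ ≤ r ∧ f u = w} ⊆ Metric.closedBall 0 r := by
    intro u hu
    rw [mem_closedBall_zero_iff]
    exact hu.1
  obtain ⟨x, hx, hacc⟩ := Set.Infinite.exists_accPt_of_subset_isCompact hinf
    (isCompact_closedBall (0 : ℂ) r) hsub
  rw [mem_closedBall_zero_iff] at hx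
  rw [accPt_iff_frequently_nhdsNE] at hacc
  have h1 : Set.EqOn f (fun _ => w) (Metric.ball 0 1) :=
    (gap_analytic hf).eqOn_of_preconnected_of_frequently_eq analyticOnNhd_const
      (convex_ball (0 : ℂ) 1).isPreconnected (z₀ := x)
      (by rw [mem_ball_zero_iff]; linarith) (hacc.mono fun u hu => hu.2)
  have h2 : ∀ᶠ r : ℝ in 𝓝[<] 1, 0 < r := nhdsWithin_le_nhds (eventually_gt_nhds one_pos)
  obtain ⟨s, h3, h4, h5⟩ := ((hT.eventually (eventually_gt_atTop (log⁺ ‖w‖))).and
    (h2.and self_mem_nhdsWithin)).exists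
  have h6 : nevT f s = log⁺ ‖w‖ := by
    unfold nevT
    rw [circleAverage_congr_sphere (f₂ := fun _ => log⁺ ‖w‖), circleAverage_const]
    intro z hz
    rw [mem_sphere_zero_iff_norm, abs_of_pos h4] at hz
    show log⁺ ‖f z‖ = log⁺ ‖w‖
    rw [h1 (by rw [mem_ball_zero_iff, hz]; exact h5)]
  linarith

/-- **Hadamard gap series have no deficient values.** Let `f` be analytic in the unit disc with
Hadamard gaps and `T(r, f) → ∞` as `r → 1-`, and let `w` be a complex number. Then

* all the circle integrals of `T` and `m` exist, and every disc `|u| ≤ r < 1` has finitely many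
  `w`-points (so that `T`, `m` and `N` have their usual meaning);
* `δ(w, f) = liminf m(r, w) / T(r, f) = 0`;
* `limsup N(r, w) / T(r, f) = 1`;
* even `liminf m(r, w) < ∞`. -/
theorem result (f : ℂ → ℂ) (hf : IsGapSeries f) (hT : Tendsto (nevT f) (𝓝[<] 1) atTop) (w : ℂ) :
    (∀ r : ℝ, 0 < r → r < 1 → CircleIntegrable (fun z => log⁺ ‖f z‖) 0 r ∧
      CircleIntegrable (fun z => log⁺ (1 / ‖f z - w‖)) 0 r ∧
      {u : ℂ | ‖u‖ ≤ r ∧ f u = w}.Finite) ∧
    deficiency f w = 0 ∧
    limsup (fun r : ℝ => ((nevN f w r / nevT f r : ℝ) : EReal)) (𝓝[<] 1) = 1 ∧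
    liminf (fun r : ℝ => ((nevM f w r : ℝ) : EReal)) (𝓝[<] 1) < ⊤ := by
  obtain ⟨C, hC, hfr⟩ := freq hf hT w
  obtain ⟨D, hD⟩ := fmt hf w
  have h01 : ∀ᶠ r : ℝ in 𝓝[<] 1, 0 < r ∧ r < 1 := by
    have h1 : ∀ᶠ r : ℝ in 𝓝[<] 1, 0 < r :=
      nhdsWithin_le_nhds (eventually_gt_nhds one_pos)
    exact h1.and self_mem_nhdsWithin
  have hM0 : ∀ r : ℝ, 0 ≤ nevM f w r := by
    intro r
    unfold nevM
    exact circleAverage_nonneg_of_nonneg fun z _ => posLog_nonneg
  have hbig : ∀ K : ℝ, ∀ᶠ r : ℝ in 𝓝[<] 1, K < nevT f r := fun K =>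
    hT.eventually (eventually_gt_atTop K)
  refine ⟨fun r h0 h1 => ⟨intT hf h0 h1, intM hf w h0 h1, fin_pts hf hT w h1⟩, ?_, ?_, ?_⟩
  · unfold deficiency
    apply le_antisymm
    · by_contra hcon
      rw [not_le, EReal.lt_iff_exists_real_btwn] at hcon
      obtain ⟨c, hc0, hc1⟩ := hcon
      have hc : (0 : ℝ) < c := by exact_mod_cast hc0
      refine absurd (liminf_le_of_frequently_le' ?_) (not_le.2 hc1)
      refine (hfr.and_eventually (hbig (C / c))).mono fun r hr => ?_
      obtain ⟨h1, h2⟩ := hr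
      have h3 : 0 < nevT f r := lt_trans (by positivity) h2
      rw [EReal.coe_le_coe_iff, div_le_iff₀ h3]
      rw [div_lt_iff₀ hc] at h2
      linarith
    · refine le_liminf_of_le (by isBoundedDefault) ?_
      filter_upwards [hbig 0] with r hr
      exact_mod_cast div_nonneg (hM0 r) hr.le
  · apply le_antisymm
    · by_contra hcon
      rw [not_le, EReal.lt_iff_exists_real_btwn] at hcon
      obtain ⟨c, hc0, hc1⟩ := hcon
      have hc : (1 : ℝ) < c := by exact_mod_cast hc0
      refine absurd (limsup_le_of_le (by isBoundedDefault) ?_) (not_le.2 hc1)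
      filter_upwards [h01, hbig 0, hbig (D / (c - 1))] with r h1 h2 h3
      have h4 := (abs_le.1 (hD r h1.1 h1.2)).2
      rw [EReal.coe_le_coe_iff, div_le_iff₀ h2]
      rw [div_lt_iff₀ (by linarith)] at h3
      linarith [hM0 r]
    · by_contra hcon
      rw [not_le, EReal.lt_iff_exists_real_btwn] at hcon
      obtain ⟨c, hc0, hc1⟩ := hcon
      have hc : c < (1 : ℝ) := by exact_mod_cast hc1
      refine absurd (le_limsup_of_frequently_le' ?_) (not_le.2 hc0)
      refine (hfr.and_eventually (h01.and ((hbig 0).and (hbig ((C + D) / (1 - c)))))).mono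
        fun r hr => ?_
      obtain ⟨h1, h2, h3, h4⟩ := hr
      have h5 := (abs_le.1 (hD r h2.1 h2.2)).1
      rw [EReal.coe_le_coe_iff, le_div_iff₀ h3]
      rw [div_lt_iff₀ (by linarith)] at h4
      linarith
  · refine lt_of_le_of_lt (liminf_le_of_frequently_le' ?_) (EReal.coe_lt_top C)
    exact hfr.mono fun r hr => EReal.coe_le_coe_iff.2 hr

end Pool.Agent.Results.MP_2df86a_an.GapDeficiency
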